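import Pool.Agent.W845.HC.Base

set_option autoImplicit false
open scoped Classical

namespace Pool.Agent.W645.HC

open Pool.Agent.W845.PM Pool.Agent.W845.HC SimpleGraph

theorem dg_eq {V : Type} [Fintype V] (F : SimpleGraph V) (v : V)
    [DecidablePred (fun w => F.Adj v w)] :
    (Finset.univ.filter (fun w => F.Adj v w)).card = dg F v := by
  unfold dg
  congr

/-- Hamiltonicity, with the classical decidability instance -/
def Ham {V : Type} [Fintype V] (G : SimpleGraph V) : Prop := G.IsHamiltonian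

theorem dft_ham {V : Type} [Fintype V] {G : SimpleGraph V} (h : Ham G) : dft G = 0 := by
  unfold dft
  exact if_pos h

theorem dft_not {V : Type} [Fintype V] {G : SimpleGraph V} (h : ¬ Ham G) :
    dft G = Fintype.card V - lam G := by
  unfold dft
  exact if_neg h

theorem dg_comm {V : Type} [Fintype V] (F : SimpleGraph V) (v : V) :
    (Finset.univ.filter (fun w => F.Adj w v)).card = dg F v := by
  unfold dg
  congr 1
  ext w
  simp [F.adj_comm]

/-- the counting -/
theorem count (n s : ℕ) (G F : SimpleGraph (Fin n)) (x y : Fin n) (good : Fin n → Fin n → Prop)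
    (hF : ∀ v, dg F v ≤ 2) (hx : dg F x ≤ 1) (hs : s ≤ G.minDegree)
    (H : ∀ z, G.Adj x z → ¬ F.Adj x z → ∃ a, ∃ F1 : SimpleGraph (Fin n), F.Adj z a ∧
      (∀ v, dg F1 v ≤ 2) ∧ dg F1 y ≤ 1 ∧
      ∀ w, G.Adj y w → ¬ F1.Adj y w → ∃ b, F1.Adj w b ∧ good a b) :
    (s - 1) ^ 2 ≤ 4 * (Finset.univ.filter (fun e : Fin n × Fin n => good e.1 e.2)).card := by
  have : Nonempty (Fin n) := ⟨x⟩
  have hdeg : ∀ (v : Fin n) (E : SimpleGraph (Fin n)), dg E v ≤ 1 →
      s - 1 ≤ (Finset.univ.filter (fun z => G.Adj v z ∧ ¬ E.Adj v z)).card := by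
    intro v E hE
    have h1 : s ≤ (Finset.univ.filter (fun z => G.Adj v z)).card := by
      have h2 := hs.trans (G.minDegree_le_degree v)
      rw [← SimpleGraph.card_neighborFinset_eq_degree, SimpleGraph.neighborFinset_eq_filter] at h2
      convert h2
    have h3 : (Finset.univ.filter (fun z => G.Adj v z)) ⊆
        (Finset.univ.filter (fun z => G.Adj v z ∧ ¬ E.Adj v z)) ∪
          (Finset.univ.filter (fun z => E.Adj v z)) := by
      intro z hz
      rw [Finset.mem_union, Finset.mem_filter, Finset.mem_filter]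
      have hz' := (Finset.mem_filter.1 hz).2
      by_cases h : E.Adj v z
      · exact Or.inr ⟨Finset.mem_univ _, h⟩
      · exact Or.inl ⟨Finset.mem_univ _, hz', h⟩
    have h4 := (Finset.card_le_card h3).trans (Finset.card_union_le _ _)
    unfold dg at hE
    omega
  choose! a F1 h1 h2 h3 h4 using H
  choose! b h5 h6 using h4
  set Z : Finset (Fin n) := Finset.univ.filter (fun z => G.Adj x z ∧ ¬ F.Adj x z) with hZ
  set W : Fin n → Finset (Fin n) := fun z =>
    Finset.univ.filter (fun w => G.Adj y w ∧ ¬ (F1 z).Adj y w) with hW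
  have hcard : (s - 1) ^ 2 ≤ (Z.sigma W).card := by
    rw [Finset.card_sigma]
    calc (s - 1) ^ 2 = (s - 1) * (s - 1) := sq _
      _ ≤ Z.card * (s - 1) := Nat.mul_le_mul_right _ (hdeg x F hx)
      _ = ∑ _z ∈ Z, (s - 1) := by rw [Finset.sum_const, smul_eq_mul]
      _ ≤ ∑ z ∈ Z, (W z).card := by
          refine Finset.sum_le_sum fun z hz => ?_
          have hz' := (Finset.mem_filter.1 hz).2
          exact hdeg y (F1 z) (h3 z hz'.1 hz'.2)
  refine hcard.trans ?_
  refine Finset.card_le_mul_card_image_of_maps_to (f := fun p => (a p.1, b p.1 p.2)) ?_ 4 ?_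
  · intro p hp
    rw [Finset.mem_sigma] at hp
    have hz := (Finset.mem_filter.1 hp.1).2
    have hw := (Finset.mem_filter.1 hp.2).2
    rw [Finset.mem_filter]
    exact ⟨Finset.mem_univ _, h6 p.1 hz.1 hz.2 p.2 hw.1 hw.2⟩
  · rintro ⟨α, β⟩ -
    have hsub : (Z.sigma W).filter (fun p => (a p.1, b p.1 p.2) = (α, β)) ⊆
        (Z.filter (fun z => F.Adj z α)).sigma (fun z =>
          Finset.univ.filter (fun w => (F1 z).Adj w β)) := by
      intro p hp
      rw [Finset.mem_filter, Finset.mem_sigma] at hp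
      obtain ⟨⟨hp1, hp2⟩, hp3⟩ := hp
      have hz := (Finset.mem_filter.1 hp1).2
      have hw := (Finset.mem_filter.1 hp2).2
      rw [Prod.mk.injEq] at hp3
      refine Finset.mem_sigma.2 ⟨Finset.mem_filter.2 ⟨hp1, ?_⟩,
        Finset.mem_filter.2 ⟨Finset.mem_univ _, ?_⟩⟩
      · rw [← hp3.1]; exact h1 p.1 hz.1 hz.2
      · rw [← hp3.2]; exact h5 p.1 hz.1 hz.2 p.2 hw.1 hw.2
    refine (Finset.card_le_card hsub).trans ?_
    rw [Finset.card_sigma]
    calc ∑ z ∈ Z.filter (fun z => F.Adj z α), (Finset.univ.filter (fun w => (F1 z).Adj w β)).card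
        ≤ ∑ _z ∈ Z.filter (fun z => F.Adj z α), 2 := by
          refine Finset.sum_le_sum fun z hz => ?_
          have hz' := (Finset.mem_filter.1 (Finset.mem_filter.1 hz).1).2
          rw [dg_comm]
          exact h2 z hz'.1 hz'.2 β
      _ = (Z.filter (fun z => F.Adj z α)).card * 2 := by rw [Finset.sum_const, smul_eq_mul]
      _ ≤ 2 * 2 := by
          refine Nat.mul_le_mul_right _ ?_
          refine (Finset.card_le_card (t := Finset.univ.filter (fun z => F.Adj z α)) ?_).trans ?_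
          · intro z hz
            rw [Finset.mem_filter]
            exact ⟨Finset.mem_univ _, (Finset.mem_filter.1 hz).2⟩
          · rw [dg_comm]; exact hF α

theorem ec_edge {V : Type} [Fintype V] (F : SimpleGraph V) (a b : V) (hab : a ≠ b)
    (h : ¬ F.Adj a b) : ec (F ⊔ edge a b) = ec F + 1 := by
  unfold ec
  rw [edgeSet_sup, edgeSet_edge_of_ne hab, Set.union_singleton,
    Set.ncard_insert_of_notMem (by rwa [mem_edgeSet]) (Set.toFinite _)]

theorem isLF_edge {V : Type} [Fintype V] (F : SimpleGraph V) (a b : V) (hF : IsLF F)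
    (hr : ¬ F.Reachable a b) (ha : dg F a ≤ 1) (hb : dg F b ≤ 1) : IsLF (F ⊔ edge a b) := by
  refine ⟨IsAcyclic.sup_edge_of_not_reachable hr hF.1, fun v => ?_⟩
  have hab : a ≠ b := fun h => hr (h ▸ Reachable.refl _)
  by_cases hva : v = a
  · subst hva
    have h1 : Finset.univ.filter (fun w => (F ⊔ edge v b).Adj v w) ⊆
        insert b (Finset.univ.filter (fun w => F.Adj v w)) := by
      intro w hw
      have hw' := (Finset.mem_filter.1 hw).2
      rw [sup_adj, edge_adj] at hw'
      rw [Finset.mem_insert, Finset.mem_filter]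
      rcases hw' with h | ⟨h | h, _⟩
      · exact Or.inr ⟨Finset.mem_univ _, h⟩
      · exact Or.inl h.2
      · exact absurd h.1 hab
    have h2 := (Finset.card_le_card h1).trans (Finset.card_insert_le _ _)
    rw [dg_eq, dg_eq] at h2
    omega
  by_cases hvb : v = b
  · subst hvb
    have h1 : Finset.univ.filter (fun w => (F ⊔ edge a v).Adj v w) ⊆
        insert a (Finset.univ.filter (fun w => F.Adj v w)) := by
      intro w hw
      have hw' := (Finset.mem_filter.1 hw).2
      rw [sup_adj, edge_adj] at hw'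
      rw [Finset.mem_insert, Finset.mem_filter]
      rcases hw' with h | ⟨h | h, _⟩
      · exact Or.inr ⟨Finset.mem_univ _, h⟩
      · exact absurd h.1.symm hab
      · exact Or.inl h.2
    have h2 := (Finset.card_le_card h1).trans (Finset.card_insert_le _ _)
    rw [dg_eq, dg_eq] at h2
    omega
  · have h0 := hF.2 v
    rw [← dg_eq] at h0 ⊢
    refine le_trans (Finset.card_le_card ?_) h0
    intro w hw
    have hw' := (Finset.mem_filter.1 hw).2
    rw [sup_adj, edge_adj] at hw'
    rw [Finset.mem_filter]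
    rcases hw' with h | ⟨h | h, _⟩
    · exact ⟨Finset.mem_univ _, h⟩
    · exact absurd h.1 hva
    · exact absurd h.1 hvb

theorem goodp : S_LAM → S_R1 → S_R2 → S_CLOSE → S_ENDS → S_GOODP := by
  intro hLAM hR1 hR2 hCL hE n s G hn hs1 hs hd
  obtain ⟨L1, L2, _, L4, _, _⟩ := hLAM
  obtain ⟨E1, E2⟩ := hE
  have hcn : Fintype.card (Fin n) = n := Fintype.card_fin n
  have hnH : ¬ Ham G := by
    intro h
    rw [dft_ham h] at hd
    omega
  have hdG : dft G = n - lam G := by
    rw [dft_not hnH, hcn]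
  have hl : lam G ≤ n - 1 := by
    have := L4 (Fin n) G
    rwa [hcn] at this
  obtain ⟨F, hFG, hFL, hFe⟩ := L1 (Fin n) G
  rcases Nat.lt_or_ge (lam G) (n - 1) with hlt | hge
  · -- first case
    obtain ⟨x, y, hxy, hdx, hdy⟩ := E1 (Fin n) F hFL (by rw [hcn]; omega)
    convert count n s G F x y (fun a b => a ≠ b ∧ dft (G ⊔ edge a b) < dft G) hFL.2 hdx hs ?_
    intro z hz hz'
    obtain ⟨a, haz, F1, _, hF1G, hF1L, hF1e, hr1, hy1, ha1⟩ :=
      hR1 (Fin n) G F x y z hFG hFL hFe hxy hdx hdy hz hz'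
    refine ⟨a, F1, haz, hF1L.2, hy1, ?_⟩
    intro w hw hw'
    obtain ⟨b, hbw, F2, _, hF2G, hF2L, hF2e, hr2, ha2, hb2⟩ :=
      hR1 (Fin n) G F1 y a w hF1G hF1L hF1e hr1 hy1 ha1 hw hw'
    refine ⟨b, hbw, ?_⟩
    have hab : a ≠ b := fun h => hr2 (h ▸ Reachable.refl _)
    refine ⟨hab, ?_⟩
    have hnadj : ¬ F2.Adj a b := fun h => hr2 h.reachable
    have h1 : lam G + 1 ≤ lam (G ⊔ edge a b) := by
      have h2 := L2 (Fin n) (G ⊔ edge a b) (F2 ⊔ edge a b) (sup_le_sup_right hF2G _)
        (isLF_edge F2 a b hF2L hr2 ha2 hb2)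
      rwa [ec_edge F2 a b hab hnadj, hF2e] at h2
    rw [hdG]
    by_cases hh : Ham (G ⊔ edge a b)
    · rw [dft_ham hh]; omega
    · rw [dft_not hh, hcn]; omega
  · -- second case
    have hle : lam G = n - 1 := le_antisymm hl hge
    rw [hle] at hFe
    have hFe' : ec F = Fintype.card (Fin n) - 1 := by rw [hcn]; exact hFe
    have h3 : 3 ≤ Fintype.card (Fin n) := by rw [hcn]; exact hn
    obtain ⟨x, y, hxy, hdx, hdy⟩ := E2 (Fin n) F (by rw [hcn]; omega) hFL hFe'
    convert count n s G F x y (fun a b => a ≠ b ∧ dft (G ⊔ edge a b) < dft G) hFL.2 hdx hs ?_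
    intro z hz hz'
    obtain ⟨a, haz, F1, _, hF1G, hF1L, hF1e, hr1, hy1, ha1⟩ :=
      hR2 (Fin n) G F x y z h3 hnH hFG hFL hFe' hxy hdx hdy hz hz'
    refine ⟨a, F1, haz, hF1L.2, hy1, ?_⟩
    intro w hw hw'
    obtain ⟨b, hbw, F2, _, hF2G, hF2L, hF2e, hab, ha2, hb2⟩ :=
      hR2 (Fin n) G F1 y a w h3 hnH hF1G hF1L hF1e hr1 hy1 ha1 hw hw'
    refine ⟨b, hbw, hab, ?_⟩
    have hH : Ham (G ⊔ edge a b) := by
      refine hCL (Fin n) F2 (G ⊔ edge a b) a b h3 hF2L hF2e hab ha2 hb2
        (hF2G.trans le_sup_left) ?_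
      rw [sup_adj, edge_adj]
      exact Or.inr ⟨Or.inl ⟨rfl, rfl⟩, hab⟩
    rw [dft_ham hH]
    exact hd

end Pool.Agent.W645.HC
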